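import Pool.Agent.Helper62.MU.St

set_option autoImplicit false

/-! Project MU, module SEG: the segment functional in the variable `y = tan ψ`. -/

open MeasureTheory Metric Set Filter Topology Polynomial
open scoped RealInnerProductSpace ContDiff

namespace Pool.Agent.Helper2.MU

open Pool.Agent.Helper62.MU Pool.Agent.Helper62.Mink

private theorem image_SEG : Real.tan '' Ioo 0 (Real.pi / 2) = Ioi (0 : ℝ) := by
  ext y
  constructor
  · rintro ⟨x, hx, rfl⟩
    exact Real.tan_pos_of_pos_of_lt_pi_div_two hx.1 hx.2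
  · intro hy
    refine ⟨Real.arctan y, ⟨?_, Real.arctan_lt_pi_div_two y⟩, Real.tan_arctan y⟩
    exact Real.arctan_pos.2 hy

private theorem cos_pos_SEG {x : ℝ} (hx : x ∈ Ioo 0 (Real.pi / 2)) : 0 < Real.cos x :=
  Real.cos_pos_of_mem_Ioo ⟨by have := Real.pi_pos; linarith [hx.1], hx.2⟩

private theorem sg_tan_SEG {x : ℝ} (hx : x ∈ Ioo 0 (Real.pi / 2)) :
    sg (Real.tan x) = (Real.cos x)⁻¹ := by
  have hc := cos_pos_SEG hx
  unfold sg
  have h1 : 1 + Real.tan x ^ 2 = ((Real.cos x)⁻¹) ^ 2 := by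
    rw [Real.tan_eq_sin_div_cos]
    have := Real.sin_sq_add_cos_sq x
    field_simp
    linarith
  rw [h1, Real.sqrt_sq (inv_nonneg.2 hc.le)]

theorem hSEG : StSEG := by
  intro m f hm hf hev
  obtain ⟨k, rfl⟩ : ∃ k, m = k + 1 := ⟨m - 1, by omega⟩
  set G : ℝ → ℝ := fun θ => f (Real.cos θ) * Real.cos θ ^ 2 * Real.sin θ ^ k with hG
  have hpi := Real.pi_pos
  -- the left side
  have hL : ∫ y in Ioi (0 : ℝ), y ^ 2 * f (y / sg y) / sg y ^ (k + 1 + 3) =
      ∫ θ in (0 : ℝ)..(Real.pi / 2), G θ := by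
    rw [← image_SEG]
    rw [integral_image_eq_integral_abs_deriv_smul (f' := fun x => 1 / Real.cos x ^ 2)
      measurableSet_Ioo
      (fun x hx => (Real.hasDerivAt_tan (cos_pos_SEG hx).ne').hasDerivWithinAt)
      (Real.injOn_tan.mono (fun x (hx : x ∈ Ioo (0 : ℝ) (Real.pi / 2)) =>
        (⟨by linarith [hx.1, hpi], hx.2⟩ : x ∈ Ioo (-(Real.pi / 2)) (Real.pi / 2))))]
    have e1 : ∫ x in Ioo 0 (Real.pi / 2), |1 / Real.cos x ^ 2| •
        (Real.tan x ^ 2 * f (Real.tan x / sg (Real.tan x)) / sg (Real.tan x) ^ (k + 1 + 3)) =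
        ∫ x in Ioo 0 (Real.pi / 2), G (Real.pi / 2 - x) := by
      apply setIntegral_congr_fun measurableSet_Ioo
      intro x hx
      have hc := cos_pos_SEG hx
      show |1 / Real.cos x ^ 2| •
        (Real.tan x ^ 2 * f (Real.tan x / sg (Real.tan x)) / sg (Real.tan x) ^ (k + 1 + 3)) =
        G (Real.pi / 2 - x)
      rw [sg_tan_SEG hx, hG]
      simp only [Real.cos_pi_div_two_sub, Real.sin_pi_div_two_sub, smul_eq_mul]
      have h2 : Real.tan x / (Real.cos x)⁻¹ = Real.sin x := by
        rw [Real.tan_eq_sin_div_cos]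
        field_simp
      rw [h2, abs_of_pos (by positivity), Real.tan_eq_sin_div_cos, inv_pow, div_inv_eq_mul]
      have hc0 : Real.cos x ≠ 0 := hc.ne'
      have e2 : 1 / Real.cos x ^ 2 * ((Real.sin x / Real.cos x) ^ 2 * f (Real.sin x) *
          Real.cos x ^ (k + 1 + 3)) =
          (Real.cos x ^ (k + 1 + 3) / Real.cos x ^ 4) * (Real.sin x ^ 2 * f (Real.sin x)) := by
        ring
      rw [e2, show k + 1 + 3 = k + 4 by ring, pow_add, mul_div_assoc,
        div_self (pow_ne_zero 4 hc0)]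
      ring
    rw [e1, ← integral_Ioc_eq_integral_Ioo,
      ← intervalIntegral.integral_of_le (by positivity : (0 : ℝ) ≤ Real.pi / 2),
      intervalIntegral.integral_comp_sub_left G (Real.pi / 2)]
    simp
  -- the right side
  have hR : seg (k + 1 + 2) f = ∫ θ in (0 : ℝ)..Real.pi, G θ := by
    unfold seg
    rfl
  have hint : IntervalIntegrable G volume 0 Real.pi := by
    have := seg_intervalIntegrable (n := k + 1 + 2) hf
    exact this
  have h1 : IntervalIntegrable G volume 0 (Real.pi / 2) :=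
    hint.mono_set (by
      rw [uIcc_of_le (by linarith), uIcc_of_le (by linarith)]
      exact Icc_subset_Icc_right (by linarith))
  have h2 : IntervalIntegrable G volume (Real.pi / 2) Real.pi :=
    hint.mono_set (by
      rw [uIcc_of_le (by linarith), uIcc_of_le (by linarith)]
      exact Icc_subset_Icc_left (by linarith))
  have h3 : ∫ θ in (Real.pi / 2)..Real.pi, G θ = ∫ θ in (0 : ℝ)..(Real.pi / 2), G θ := by
    have h4 := intervalIntegral.integral_comp_sub_left (a := 0) (b := Real.pi / 2) G Real.pi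
    have h5 : Real.pi - Real.pi / 2 = Real.pi / 2 := by ring
    rw [h5, sub_zero] at h4
    rw [← h4]
    apply intervalIntegral.integral_congr
    intro x _
    show G (Real.pi - x) = G x
    rw [hG]
    simp only [Real.cos_pi_sub, Real.sin_pi_sub]
    rw [hev (Real.cos x) ⟨Real.neg_one_le_cos x, Real.cos_le_one x⟩]
    ring
  rw [hL, hR, ← intervalIntegral.integral_add_adjacent_intervals h1 h2, h3]
  ring

end Pool.Agent.Helper2.MU
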